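import Mathlib

set_option autoImplicit false
open Pointwise

namespace Pool.Agent.H875BS

open Finset Filter Topology

/-- The affine maps `x ↦ 2 ^ k * x + m` of the rational line. -/
@[ext] structure BS where
  m : ℚ
  k : ℤ
deriving DecidableEq

instance : Mul BS := ⟨fun x y => ⟨x.m + 2 ^ x.k * y.m, x.k + y.k⟩⟩
instance : One BS := ⟨⟨0, 0⟩⟩
instance : Inv BS := ⟨fun x => ⟨-(2 ^ (-x.k) * x.m), -x.k⟩⟩

theorem mul_def (x y : BS) : x * y = ⟨x.m + 2 ^ x.k * y.m, x.k + y.k⟩ := rfl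
theorem one_def : (1 : BS) = ⟨0, 0⟩ := rfl
theorem inv_def (x : BS) : x⁻¹ = ⟨-(2 ^ (-x.k) * x.m), -x.k⟩ := rfl

instance : Group BS := Group.ofLeftAxioms
  (by
    intro a b c
    simp only [mul_def]
    ext
    · simp only
      rw [zpow_add₀ (by norm_num : (2 : ℚ) ≠ 0)]
      ring
    · simp only
      ring)
  (by
    intro a
    simp only [mul_def, one_def]
    ext <;> simp)
  (by
    intro a
    simp only [mul_def, one_def, inv_def]
    ext <;> simp)

def gB : Finset BS := {⟨0, 1⟩, ⟨1, 1⟩}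

def gA (N n : ℕ) : Finset BS :=
  (range N ×ˢ range n).image (fun q => (⟨(q.1 : ℚ), (q.2 : ℤ)⟩ : BS))

theorem card_gA (N n : ℕ) : (gA N n).card = N * n := by
  unfold gA
  rw [Finset.card_image_of_injective, Finset.card_product, Finset.card_range, Finset.card_range]
  intro x y hxy
  simp only [BS.mk.injEq, Nat.cast_inj] at hxy
  exact Prod.ext hxy.1 hxy.2

theorem mem_gB {x : BS} (hx : x ∈ gB) : ∃ e : ℕ, e ≤ 1 ∧ x = ⟨(e : ℚ), 1⟩ := by
  simp only [gB, Finset.mem_insert, Finset.mem_singleton] at hx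
  rcases hx with h | h
  · exact ⟨0, by omega, by rw [h]; simp⟩
  · exact ⟨1, by omega, by rw [h]; simp⟩

theorem mem_gA {N n : ℕ} {x : BS} (hx : x ∈ gA N n) :
    ∃ m p : ℕ, m < N ∧ p < n ∧ x = ⟨(m : ℚ), (p : ℤ)⟩ := by
  simp only [gA, Finset.mem_image, Finset.mem_product, Finset.mem_range] at hx
  obtain ⟨⟨m, p⟩, ⟨h1, h2⟩, h3⟩ := hx
  exact ⟨m, p, h1, h2, h3.symm⟩

theorem sum_pow (n : ℕ) : ∑ p ∈ range n, 2 ^ p = 2 ^ n - 1 := by
  have := Nat.geomSum_eq (le_refl 2) n
  simpa using this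

theorem card_AB (N n : ℕ) : (gA N n * gB).card ≤ N * n + (2 ^ n - 1) := by
  have hsub : gA N n * gB ⊆ (range n).biUnion (fun p =>
      (range (N + 2 ^ p)).image (fun m : ℕ => (⟨(m : ℚ), (p : ℤ) + 1⟩ : BS))) := by
    intro z hz
    obtain ⟨x, hx, y, hy, rfl⟩ := Finset.mem_mul.1 hz
    obtain ⟨m, p, hm, hp, rfl⟩ := mem_gA hx
    obtain ⟨e, he, rfl⟩ := mem_gB hy
    simp only [Finset.mem_biUnion, Finset.mem_image, Finset.mem_range]
    refine ⟨p, hp, m + 2 ^ p * e, ?_, ?_⟩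
    · have : 2 ^ p * e ≤ 2 ^ p * 1 := Nat.mul_le_mul_left _ he
      omega
    · rw [mul_def]
      ext
      · simp
      · simp
  refine le_trans (Finset.card_le_card hsub) (le_trans Finset.card_biUnion_le ?_)
  refine le_trans (Finset.sum_le_sum (fun p _ => Finset.card_image_le)) ?_
  simp only [Finset.card_range]
  rw [Finset.sum_add_distrib, sum_pow, Finset.sum_const, Finset.card_range, smul_eq_mul, mul_comm]

theorem card_AbB (N n : ℕ) (b : BS) (hb : b ∈ gB) :
    (gA N n * {b} * gB).card ≤ N * n + 2 * (2 ^ n - 1) := by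
  obtain ⟨e, he, rfl⟩ := mem_gB hb
  have hsub : gA N n * {(⟨(e : ℚ), 1⟩ : BS)} * gB ⊆ (range n).biUnion (fun p =>
      (range (N + 2 * 2 ^ p)).image
        (fun m : ℕ => (⟨(m : ℚ) + 2 ^ p * e, (p : ℤ) + 2⟩ : BS))) := by
    intro z hz
    obtain ⟨x, hx, y, hy, rfl⟩ := Finset.mem_mul.1 hz
    obtain ⟨x', hx', b', hb', rfl⟩ := Finset.mem_mul.1 hx
    rw [Finset.mem_singleton] at hb'
    subst hb'
    obtain ⟨m, p, hm, hp, rfl⟩ := mem_gA hx'
    obtain ⟨e', he', rfl⟩ := mem_gB hy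
    simp only [Finset.mem_biUnion, Finset.mem_image, Finset.mem_range]
    refine ⟨p, hp, m + 2 * 2 ^ p * e', ?_, ?_⟩
    · have : 2 * 2 ^ p * e' ≤ 2 * 2 ^ p * 1 := Nat.mul_le_mul_left _ he'
      omega
    · rw [mul_def, mul_def]
      ext
      · simp only
        rw [zpow_add₀ (by norm_num : (2 : ℚ) ≠ 0)]
        push_cast
        simp only [zpow_natCast]
        ring
      · simp only
        ring
  refine le_trans (Finset.card_le_card hsub) (le_trans Finset.card_biUnion_le ?_)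
  refine le_trans (Finset.sum_le_sum (fun p _ => Finset.card_image_le)) ?_
  simp only [Finset.card_range]
  rw [Finset.sum_add_distrib, ← Finset.mul_sum, sum_pow, Finset.sum_const, Finset.card_range,
    smul_eq_mul, mul_comm]

theorem mem_pow (h : ℕ) : ∀ m : ℕ, m < 2 ^ h → (⟨(m : ℚ), (h : ℤ)⟩ : BS) ∈ gB ^ h := by
  induction h with
  | zero =>
    intro m hm
    have : m = 0 := by simpa using hm
    subst this
    rw [pow_zero, Finset.mem_one, one_def]
    simp
  | succ h ih =>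
    intro m hm
    rw [pow_succ']
    have h1 : m / 2 < 2 ^ h := by
      rw [Nat.div_lt_iff_lt_mul (by norm_num), ← pow_succ]
      exact hm
    have h2 := ih (m / 2) h1
    refine Finset.mem_mul.2 ⟨⟨((m % 2 : ℕ) : ℚ), 1⟩, ?_, _, h2, ?_⟩
    · rcases Nat.mod_two_eq_zero_or_one m with h3 | h3 <;> rw [h3] <;> simp [gB]
    · rw [mul_def]
      ext
      · simp only [zpow_one]
        have : ((m % 2 + 2 * (m / 2) : ℕ) : ℚ) = (m : ℚ) := by
          rw [Nat.mod_add_div]
        push_cast at this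
        exact this
      · simp only
        push_cast
        ring

theorem card_pow (h : ℕ) : 2 ^ h ≤ (gB ^ h).card := by
  have : (range (2 ^ h)).image (fun m : ℕ => (⟨(m : ℚ), (h : ℤ)⟩ : BS)) ⊆ gB ^ h := by
    intro z hz
    obtain ⟨m, hm, rfl⟩ := Finset.mem_image.1 hz
    exact mem_pow h m (Finset.mem_range.1 hm)
  have h2 := Finset.card_le_card this
  rw [Finset.card_image_of_injective, Finset.card_range] at h2
  · exact h2
  · intro x y hxy
    simp only [BS.mk.injEq, Nat.cast_inj, and_true] at hxy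
    exact hxy

theorem card_mul (X Y : Finset BS) (hX : X.Nonempty) : Y.card ≤ (X * Y).card := by
  obtain ⟨x, hx⟩ := hX
  have h1 : ({x} : Finset BS) * Y ⊆ X * Y := Finset.mul_subset_mul_right (by simpa using hx)
  have h2 := Finset.card_le_card h1
  rw [Finset.card_singleton_mul] at h2
  exact h2

theorem exists_n (C : ℝ) : ∃ n : ℕ, 1 ≤ n ∧ C * n < 2 ^ n := by
  have h1 : Tendsto (fun n : ℕ => (n : ℝ) ^ 1 / 2 ^ n) atTop (𝓝 0) :=
    tendsto_pow_const_div_const_pow_of_one_lt 1 (by norm_num)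
  have h2 : Tendsto (fun n : ℕ => C * ((n : ℝ) ^ 1 / 2 ^ n)) atTop (𝓝 (C * 0)) :=
    h1.const_mul C
  rw [mul_zero] at h2
  obtain ⟨n, hn, hn1⟩ := ((h2.eventually (gt_mem_nhds (by norm_num : (0 : ℝ) < 1))).and
    (eventually_ge_atTop 1)).exists
  refine ⟨n, hn1, ?_⟩
  have h3 : (0 : ℝ) < 2 ^ n := by positivity
  rw [pow_one, ← mul_div_assoc, div_lt_one h3] at hn
  exact hn

theorem main : ¬ (∃ c : ℝ, ∀ (G : Type) [Group G] [DecidableEq G] (A B : Finset G) (α : ℝ),
      (((A * B).card : ℝ) < α * (A.card : ℝ)) →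
      (∀ b ∈ B, (((A * {b} * B).card : ℝ) ≤ α * (A.card : ℝ))) →
      ∀ h : ℕ, 1 ≤ h →
        ∃ X : Finset G, X ⊆ A ∧ X.Nonempty ∧
          (((X * B ^ h).card : ℝ) ≤ α ^ (c * (h : ℝ)) * (X.card : ℝ))) := by
  rintro ⟨c, hc⟩
  obtain ⟨n, hn1, hn⟩ := exists_n (2 * Real.exp (|c| * 2))
  have hn0 : (0 : ℝ) < n := by exact_mod_cast hn1
  set α : ℝ := 1 + 1 / n with hα
  set N : ℕ := 2 * 2 ^ n with hN
  have hAc : ((gA N n).card : ℝ) = N * n := by
    rw [card_gA]
    push_cast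
    ring
  have hαA : α * ((gA N n).card : ℝ) = N * n + N := by
    rw [hAc, hα]
    field_simp
  have hp : 1 ≤ 2 ^ n := Nat.one_le_two_pow
  obtain ⟨X, hXA, hX, hle⟩ := hc BS (gA N n) gB α
    (by
      rw [hαA]
      have h1 := card_AB N n
      have h2 : (gA N n * gB).card < N * n + N := by omega
      exact_mod_cast h2)
    (by
      intro b hb
      rw [hαA]
      have h1 := card_AbB N n b hb
      have h2 : (gA N n * {b} * gB).card ≤ N * n + N := by omega
      exact_mod_cast h2)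
    (2 * n) (by omega)
  have h1 : (2 : ℝ) ^ (2 * n) ≤ ((X * gB ^ (2 * n)).card : ℝ) := by
    have := le_trans (card_pow (2 * n)) (card_mul X _ hX)
    exact_mod_cast this
  have h2 : (X.card : ℝ) ≤ N * n := by
    rw [← hAc]
    exact_mod_cast Finset.card_le_card hXA
  have hα1 : 1 ≤ α := by
    rw [hα]
    have : 0 < 1 / (n : ℝ) := by positivity
    linarith
  have hα0 : 0 < α := by linarith
  have h3 : α ^ (c * ((2 * n : ℕ) : ℝ)) ≤ Real.exp (|c| * 2) := by
    rw [Real.rpow_def_of_pos hα0]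
    apply Real.exp_le_exp.2
    have hl0 : 0 ≤ Real.log α := Real.log_nonneg hα1
    have hl1 : Real.log α ≤ 1 / n := by
      have := Real.log_le_sub_one_of_pos hα0
      rw [hα] at this ⊢
      linarith
    push_cast
    calc Real.log α * (c * (2 * n)) ≤ Real.log α * (|c| * (2 * n)) := by
          apply mul_le_mul_of_nonneg_left _ hl0
          apply mul_le_mul_of_nonneg_right (le_abs_self c) (by positivity)
      _ ≤ 1 / n * (|c| * (2 * n)) := by
          apply mul_le_mul_of_nonneg_right hl1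
          positivity
      _ = |c| * 2 := by
          field_simp
  have h4 : (2 : ℝ) ^ (2 * n) ≤ Real.exp (|c| * 2) * (N * n) := by
    refine le_trans h1 (le_trans hle ?_)
    exact mul_le_mul h3 h2 (by positivity) (by positivity)
  have h5 : (N : ℝ) = 2 * 2 ^ n := by
    rw [hN]
    push_cast
    ring
  rw [h5, two_mul, pow_add] at h4
  have h6 : (0 : ℝ) < 2 ^ n := by positivity
  have h7 : (2 : ℝ) ^ n * 2 ^ n ≤ 2 ^ n * (2 * Real.exp (|c| * 2) * n) := by
    calc (2 : ℝ) ^ n * 2 ^ n ≤ Real.exp (|c| * 2) * (2 * 2 ^ n * n) := h4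
      _ = 2 ^ n * (2 * Real.exp (|c| * 2) * n) := by ring
  have h8 := le_of_mul_le_mul_left h7 h6
  linarith

end Pool.Agent.H875BS
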